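import Mathlib

/-!
# MP_28ad2c_co: Sidon sets in cyclic groups of even order

The character of order two gives a perfect square close to the size of a Sidon set whose
differences cover almost all of the group.
-/

set_option autoImplicit false

namespace Pool.Agent.Results.MP_28ad2c_co.EvenOrder

/-- Sidon sets: `a + b = c + d` only for equal pairs -/
def Sidon {n : ℕ} (A : Finset (ZMod n)) : Prop :=
  ∀ a ∈ A, ∀ b ∈ A, ∀ c ∈ A, ∀ d ∈ A, a + b = c + d → (a = c ∧ b = d) ∨ (a = d ∧ b = c)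

/-- the largest size of a Sidon set -/
noncomputable def sigma (n : ℕ) : ℕ := sSup {k | ∃ A : Finset (ZMod n), Sidon A ∧ A.card = k}

/-- the integer part of `(√(4 n - 3) + 1) / 2` -/
def M (n : ℕ) : ℕ := (Nat.sqrt (4 * n - 3) + 1) / 2

/-- the sign on `ZMod 2` -/
def g (x : ZMod 2) : ℤ := if x = 0 then 1 else -1

lemma g_sub : ∀ x y : ZMod 2, g (x - y) = g x * g y := by decide

lemma g_succ : ∀ x : ZMod 2, g (x + 1) = - g x := by decide

lemma g_zero : g 0 = 1 := by decide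

lemma g_odd : ∀ x : ZMod 2, g x % 2 = 1 := by decide

lemma g_abs : ∀ x : ZMod 2, |g x| = 1 := by decide

lemma g_cast (k : ℕ) : g (k : ZMod 2) = (-1) ^ k := by
  induction k with
  | zero => simp [g_zero]
  | succ k ih => rw [Nat.cast_succ, g_succ, ih, pow_succ]; ring

theorem main {n m : ℕ} (hn : 2 ∣ n) (hn0 : 0 < n) (A : Finset (ZMod n)) (hA : Sidon A)
    (hm : A.card = m) :
    ∃ s : ℤ, s % 2 = (m : ℤ) % 2 ∧
      |s ^ 2 - ((m : ℤ) - 1 - (-1) ^ (n / 2))| ≤ (n : ℤ) - ((m : ℤ) ^ 2 - m + 2) := by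
  have : NeZero n := ⟨hn0.ne'⟩
  classical
  set f : ZMod n →+* ZMod 2 := ZMod.castHom hn (ZMod 2) with hf
  set c : ZMod n → ℤ := fun x => g (f x) with hc
  have csub : ∀ x y, c (x - y) = c x * c y := fun x y => by
    simp only [hc]; rw [map_sub, g_sub]
  have c0 : c 0 = 1 := by simp only [hc]; rw [map_zero, g_zero]
  have csum : ∑ x : ZMod n, c x = 0 := by
    have h1 : ∑ x : ZMod n, c x = ∑ x : ZMod n, c (x + 1) :=
      (Equiv.sum_comp (Equiv.addRight (1 : ZMod n)) c).symm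
    have h2 : ∑ x : ZMod n, c (x + 1) = - ∑ x : ZMod n, c x := by
      rw [← Finset.sum_neg_distrib]
      refine Finset.sum_congr rfl fun x _ => ?_
      simp only [hc]; rw [map_add, map_one, g_succ]
    omega
  set h : ZMod n := ((n / 2 : ℕ) : ZMod n) with hh
  have ch : c h = (-1) ^ (n / 2) := by
    simp only [hc, hh]; rw [map_natCast, g_cast]
  have hhh : h + h = 0 := by
    rw [hh, ← Nat.cast_add, show n / 2 + n / 2 = n by omega, ZMod.natCast_self]
  have h0 : h ≠ 0 := by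
    intro h1
    rw [hh, ZMod.natCast_eq_zero_iff] at h1
    have := Nat.le_of_dvd (by omega) h1
    omega
  set D : Finset (ZMod n) := A.offDiag.image (fun p => p.1 - p.2) with hD
  have inj : Set.InjOn (fun p : ZMod n × ZMod n => p.1 - p.2) (A.offDiag : Set (ZMod n × ZMod n)) := by
    rintro ⟨a, b⟩ hab ⟨x, y⟩ hxy e
    rw [Finset.mem_coe, Finset.mem_offDiag] at hab hxy
    simp only at e hab hxy
    have e' : a + y = x + b := by linear_combination e
    rcases hA a hab.1 y hxy.2.1 x hxy.1 b hab.2.1 e' with ⟨h1, h2⟩ | ⟨h1, h2⟩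
    · rw [h1, h2]
    · exact absurd h1 hab.2.2
  have cardD : (D.card : ℤ) = (m : ℤ) ^ 2 - m := by
    rw [hD, Finset.card_image_of_injOn inj, Finset.offDiag_card, hm, Nat.cast_sub]
    · push_cast; ring
    · exact Nat.le_mul_self m
  have D0 : (0 : ZMod n) ∉ D := by
    intro hd
    rw [hD, Finset.mem_image] at hd
    obtain ⟨⟨a, b⟩, hab, e⟩ := hd
    rw [Finset.mem_offDiag] at hab
    exact hab.2.2 (sub_eq_zero.1 e)
  have Dh : h ∉ D := by
    intro hd
    rw [hD, Finset.mem_image] at hd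
    obtain ⟨⟨a, b⟩, hab, e⟩ := hd
    rw [Finset.mem_offDiag] at hab
    simp only at e hab
    have e' : a + a = b + b := by linear_combination 2 * e + hhh
    rcases hA a hab.1 a hab.1 b hab.2.1 b hab.2.1 e' with ⟨h1, h2⟩ | ⟨h1, h2⟩
    · exact hab.2.2 h1
    · exact hab.2.2 h1
  set U : Finset (ZMod n) := Finset.univ \ (insert 0 (insert h D)) with hU
  have cardI : (insert (0 : ZMod n) (insert h D)).card = D.card + 2 := by
    rw [Finset.card_insert_of_notMem, Finset.card_insert_of_notMem Dh]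
    rw [Finset.mem_insert, not_or]
    exact ⟨h0.symm, D0⟩
  have cardU : (U.card : ℤ) = n - ((m : ℤ) ^ 2 - m + 2) := by
    have h1 := Finset.card_sdiff_add_card_eq_card (Finset.subset_univ (insert (0 : ZMod n) (insert h D)))
    rw [← hU, cardI, Finset.card_univ, ZMod.card] at h1
    have h2 : (U.card : ℤ) + (D.card + 2) = n := by exact_mod_cast h1
    rw [cardD] at h2
    linarith
  have sumI : ∑ x ∈ insert (0 : ZMod n) (insert h D), c x = 1 + ((-1) ^ (n / 2) + ∑ x ∈ D, c x) := by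
    rw [Finset.sum_insert, Finset.sum_insert Dh, c0, ch]
    rw [Finset.mem_insert, not_or]
    exact ⟨h0.symm, D0⟩
  have sumU : ∑ x ∈ U, c x + (1 + ((-1) ^ (n / 2) + ∑ x ∈ D, c x)) = 0 := by
    rw [← sumI, hU, Finset.sum_sdiff (Finset.subset_univ _), csum]
  have absU : |∑ x ∈ U, c x| ≤ U.card := by
    refine (Finset.abs_sum_le_sum_abs _ _).trans ?_
    rw [Finset.sum_congr rfl fun x _ => (g_abs (f x) : |c x| = 1)]
    simp
  refine ⟨∑ a ∈ A, c a, ?_, ?_⟩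
  · rw [← hm, Finset.card_eq_sum_ones, Nat.cast_sum, Finset.sum_int_mod,
      Finset.sum_int_mod (s := A) (n := 2) (f := fun _ => ((1 : ℕ) : ℤ))]
    congr 1
    exact Finset.sum_congr rfl fun x _ => g_odd (f x)
  · have sq : (∑ a ∈ A, c a) ^ 2 = m + ∑ x ∈ D, c x := by
      rw [pow_two, Finset.sum_mul_sum, ← Finset.sum_product',
        ← Finset.diag_union_offDiag, Finset.sum_union (Finset.disjoint_diag_offDiag _)]
      congr 1
      · rw [Finset.sum_congr rfl (g := fun _ => (1 : ℤ))]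
        · rw [Finset.sum_const, Finset.diag_card, hm]; simp
        · rintro ⟨a, b⟩ hab
          rw [Finset.mem_diag] at hab
          simp only at hab ⊢
          rw [← hab.2, ← csub, sub_self, c0]
      · rw [hD, Finset.sum_image inj]
        exact Finset.sum_congr rfl fun x _ => (csub x.1 x.2).symm
    rw [sq, ← cardU]
    have e : (m : ℤ) + ∑ x ∈ D, c x - ((m : ℤ) - 1 - (-1) ^ (n / 2)) = - ∑ x ∈ U, c x := by
      linarith
    rw [e, abs_neg]
    exact absU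

lemma M_eq {n m : ℕ} (hm : 1 ≤ m) (h1 : m ^ 2 - m + 1 ≤ n) (h2 : n ≤ m ^ 2 + m) : M n = m := by
  unfold M
  obtain ⟨k, rfl⟩ : ∃ k, m = k + 1 := ⟨m - 1, by omega⟩
  have e : (k + 1) ^ 2 - (k + 1) = k * k + k := by
    rw [Nat.sub_eq_iff_eq_add (by nlinarith)]; ring
  rw [e] at h1
  have h3 : 2 * k + 1 ≤ Nat.sqrt (4 * n - 3) := by
    rw [Nat.le_sqrt]
    have : 4 * (k * k + k + 1) ≤ 4 * n := by omega
    have e2 : (2 * k + 1) * (2 * k + 1) = 4 * (k * k + k + 1) - 3 := by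
      rw [eq_comm, Nat.sub_eq_iff_eq_add (by omega)]; ring
    omega
  have h4 : Nat.sqrt (4 * n - 3) < 2 * k + 3 := by
    rw [Nat.sqrt_lt]
    have e3 : (2 * k + 3) * (2 * k + 3) = 4 * ((k + 1) ^ 2 + (k + 1)) + 1 := by ring
    omega
  omega

lemma sigma_lt {n m : ℕ} (hn : 2 ∣ n) (hn0 : 0 < n) (hm : 1 ≤ m) (h1 : m ^ 2 - m + 1 ≤ n)
    (h2 : n ≤ m ^ 2 + m)
    (h : ∀ s : ℤ, s % 2 = (m : ℤ) % 2 →
      (n : ℤ) - ((m : ℤ) ^ 2 - m + 2) < |s ^ 2 - ((m : ℤ) - 1 - (-1) ^ (n / 2))|) :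
    sigma n < M n := by
  rw [M_eq hm h1 h2]
  have : NeZero n := ⟨hn0.ne'⟩
  have key : ∀ k ∈ {k | ∃ A : Finset (ZMod n), Sidon A ∧ A.card = k}, k ≤ m - 1 := by
    rintro k ⟨A, hA, hk⟩
    by_contra hc
    obtain ⟨B, hB, hB'⟩ := Finset.exists_subset_card_eq (show m ≤ A.card by omega)
    obtain ⟨s, hs, hs'⟩ := main hn hn0 B
      (fun a ha b hb c hc d hd => hA a (hB ha) b (hB hb) c (hB hc) d (hB hd)) hB'
    have := h s hs
    omega
  have h3 : sigma n ≤ m - 1 := csSup_le ⟨0, ∅, fun a ha => absurd ha (Finset.notMem_empty a), rfl⟩ key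
  omega

theorem result :
    -- the general obstruction
    (∀ n m : ℕ, 2 ∣ n → 0 < n → ∀ A : Finset (ZMod n), Sidon A → A.card = m →
      ∃ s : ℤ, s % 2 = (m : ℤ) % 2 ∧
        |s ^ 2 - ((m : ℤ) - 1 - (-1) ^ (n / 2))| ≤ (n : ℤ) - ((m : ℤ) ^ 2 - m + 2)) ∧
    -- in terms of `σ` and `M`
    (∀ n m : ℕ, 2 ∣ n → 0 < n → 1 ≤ m → m ^ 2 - m + 1 ≤ n → n ≤ m ^ 2 + m →
      (∀ s : ℤ, s % 2 = (m : ℤ) % 2 →
        (n : ℤ) - ((m : ℤ) ^ 2 - m + 2) < |s ^ 2 - ((m : ℤ) - 1 - (-1) ^ (n / 2))|) →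
      sigma n < M n) ∧
    -- an explicit family
    (∀ k m n : ℕ, 2 ≤ k → m = k ^ 2 + k + 1 → 2 ∣ n → m ^ 2 - m + 1 ≤ n → n ≤ m ^ 2 - m + k →
      sigma n < M n) := by
  refine ⟨fun n m hn hn0 A hA hm => main hn hn0 A hA hm,
    fun n m hn hn0 hm h1 h2 h => sigma_lt hn hn0 hm h1 h2 h, ?_⟩
  intro k m n hk hm hn h1 h2
  have hmm : m ^ 2 - m + k ≤ m ^ 2 + m := by
    have : k ≤ m := by rw [hm]; nlinarith
    omega
  refine sigma_lt hn (by omega) (by rw [hm]; omega) h1 (h2.trans hmm) fun s _ => ?_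
  have h3 : (n : ℤ) ≤ (m : ℤ) ^ 2 - m + k := by
    have h4 : m ≤ m ^ 2 := Nat.le_self_pow (by norm_num) m
    have h5 : ((m ^ 2 - m + k : ℕ) : ℤ) = (m : ℤ) ^ 2 - m + k := by
      rw [Nat.cast_add, Nat.cast_sub h4]; push_cast; ring
    rw [← h5]; exact_mod_cast h2
  have h6 : (m : ℤ) = (k : ℤ) ^ 2 + k + 1 := by rw [hm]; push_cast; ring
  have hk' : (2 : ℤ) ≤ k := by exact_mod_cast hk
  have h7 : (-1 : ℤ) ^ (n / 2) = 1 ∨ (-1 : ℤ) ^ (n / 2) = -1 := neg_one_pow_eq_or ℤ (n / 2)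
  have h8 : s ^ 2 ≤ (k : ℤ) ^ 2 ∨ ((k : ℤ) + 1) ^ 2 ≤ s ^ 2 := by
    rcases le_or_gt |s| k with h9 | h9
    · left; rw [← sq_abs s]; exact pow_le_pow_left₀ (abs_nonneg s) h9 2
    · right; rw [← sq_abs s]; exact pow_le_pow_left₀ (by omega) (by omega) 2
  rw [lt_abs]
  rcases h7 with h7 | h7 <;> rw [h7] <;> rcases h8 with h8 | h8
  · right; nlinarith
  · left; nlinarith
  · right; nlinarith
  · left; nlinarith

end Pool.Agent.Results.MP_28ad2c_co.EvenOrder
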