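import Mathlib

/-!
# MP_28ad2c_co: Sidon sets in cyclic groups of order divisible by three

The characters of order three give a norm `u² + u v + v²` close to the size of a Sidon set whose
differences cover almost all of the group.
-/

set_option autoImplicit false

namespace Pool.Agent.Results.MP_28ad2c_co.ThreeDividesOrder

/-- Sidon sets: `a + b = c + d` only for equal pairs -/
def Sidon {n : ℕ} (A : Finset (ZMod n)) : Prop :=
  ∀ a ∈ A, ∀ b ∈ A, ∀ c ∈ A, ∀ d ∈ A, a + b = c + d → (a = c ∧ b = d) ∨ (a = d ∧ b = c)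

/-- the largest size of a Sidon set -/
noncomputable def sigma (n : ℕ) : ℕ := sSup {k | ∃ A : Finset (ZMod n), Sidon A ∧ A.card = k}

/-- the integer part of `(√(4 n - 3) + 1) / 2` -/
def M (n : ℕ) : ℕ := (Nat.sqrt (4 * n - 3) + 1) / 2

/-- the weight -/
def W (x : ZMod 3) : ℤ := if x = 0 then 2 else -1

/-- indicators -/
def I (i x : ZMod 3) : ℤ := if x = i then 1 else 0

lemma W_sub : ∀ x y : ZMod 3,
    W (x - y) = 3 * (I 0 x * I 0 y + I 1 x * I 1 y + I 2 x * I 2 y) - 1 := by decide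

lemma W_three : ∀ x : ZMod 3, W x + W (x + 1) + W (x + 2) = 0 := by decide

lemma I_sum : ∀ x : ZMod 3, I 0 x + I 1 x + I 2 x = 1 := by decide

lemma W_zero : W 0 = 2 := by decide

lemma W_eq : ∀ x : ZMod 3, W x = 3 * I 0 x - 1 := by decide

lemma I_nonneg : ∀ x : ZMod 3, 0 ≤ I 0 x := by decide

lemma I_le : ∀ x : ZMod 3, I 0 x ≤ 1 := by decide

theorem main {n m : ℕ} (hn : 3 ∣ n) (hn0 : 0 < n) (A : Finset (ZMod n)) (hA : Sidon A)
    (hm : A.card = m) :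
    ∃ u v t : ℤ, 0 ≤ t ∧ t ≤ (n : ℤ) - ((m : ℤ) ^ 2 - m + 1) ∧
      2 * (u ^ 2 + u * v + v ^ 2) =
        2 * ((m : ℤ) - 1) + ((n : ℤ) - ((m : ℤ) ^ 2 - m + 1)) - 3 * t := by
  have : NeZero n := ⟨hn0.ne'⟩
  classical
  set f : ZMod n →+* ZMod 3 := ZMod.castHom hn (ZMod 3) with hf
  set c : ZMod n → ℤ := fun x => W (f x) with hc
  have c0 : c 0 = 2 := by simp only [hc]; rw [map_zero, W_zero]
  have csum : ∑ x : ZMod n, c x = 0 := by
    have h1 : ∑ x : ZMod n, c (x + 1) = ∑ x : ZMod n, c x :=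
      Equiv.sum_comp (Equiv.addRight (1 : ZMod n)) c
    have h2 : ∑ x : ZMod n, c (x + 2) = ∑ x : ZMod n, c x :=
      Equiv.sum_comp (Equiv.addRight (2 : ZMod n)) c
    have h3 : ∑ x : ZMod n, (c x + c (x + 1) + c (x + 2)) = 0 := by
      refine Finset.sum_eq_zero fun x _ => ?_
      simp only [hc]
      rw [map_add, map_add, map_one, map_ofNat]
      exact W_three (f x)
    rw [Finset.sum_add_distrib, Finset.sum_add_distrib, h1, h2] at h3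
    omega
  set D : Finset (ZMod n) := A.offDiag.image (fun p => p.1 - p.2) with hD
  have inj : Set.InjOn (fun p : ZMod n × ZMod n => p.1 - p.2) (A.offDiag : Set (ZMod n × ZMod n)) := by
    rintro ⟨a, b⟩ hab ⟨x, y⟩ hxy e
    rw [Finset.mem_coe, Finset.mem_offDiag] at hab hxy
    simp only at e hab hxy
    have e' : a + y = x + b := by linear_combination e
    rcases hA a hab.1 y hxy.2.1 x hxy.1 b hab.2.1 e' with ⟨h1, h2⟩ | ⟨h1, h2⟩
    · rw [h1, h2]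
    · exact absurd h1 hab.2.2
  have cardD : (D.card : ℤ) = (m : ℤ) ^ 2 - m := by
    rw [hD, Finset.card_image_of_injOn inj, Finset.offDiag_card, hm, Nat.cast_sub]
    · push_cast; ring
    · exact Nat.le_mul_self m
  have D0 : (0 : ZMod n) ∉ D := by
    intro hd
    rw [hD, Finset.mem_image] at hd
    obtain ⟨⟨a, b⟩, hab, e⟩ := hd
    rw [Finset.mem_offDiag] at hab
    exact hab.2.2 (sub_eq_zero.1 e)
  set U : Finset (ZMod n) := Finset.univ \ (insert 0 D) with hU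
  have cardU : (U.card : ℤ) = n - ((m : ℤ) ^ 2 - m + 1) := by
    have h1 := Finset.card_sdiff_add_card_eq_card (Finset.subset_univ (insert (0 : ZMod n) D))
    rw [← hU, Finset.card_insert_of_notMem D0, Finset.card_univ, ZMod.card] at h1
    have h2 : (U.card : ℤ) + (D.card + 1) = n := by exact_mod_cast h1
    rw [cardD] at h2
    linarith
  have sumU : ∑ x ∈ U, c x + (2 + ∑ x ∈ D, c x) = 0 := by
    rw [← c0, ← Finset.sum_insert D0, hU, Finset.sum_sdiff (Finset.subset_univ _), csum]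
  have sumU' : ∑ x ∈ U, c x = 3 * ∑ x ∈ U, I 0 (f x) - U.card := by
    rw [Finset.mul_sum, Finset.card_eq_sum_ones, Nat.cast_sum, ← Finset.sum_sub_distrib]
    exact Finset.sum_congr rfl fun x _ => by rw [Nat.cast_one]; exact W_eq (f x)
  set x0 := ∑ a ∈ A, I 0 (f a) with hx0
  set x1 := ∑ a ∈ A, I 1 (f a) with hx1
  set x2 := ∑ a ∈ A, I 2 (f a) with hx2
  have hx : x0 + x1 + x2 = m := by
    rw [hx0, hx1, hx2, ← Finset.sum_add_distrib, ← Finset.sum_add_distrib,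
      Finset.sum_congr rfl fun a _ => I_sum (f a), Finset.sum_const, hm]
    simp
  have sq : 3 * (x0 ^ 2 + x1 ^ 2 + x2 ^ 2) - (m : ℤ) ^ 2 = 2 * m + ∑ x ∈ D, c x := by
    have h1 : 3 * (x0 ^ 2 + x1 ^ 2 + x2 ^ 2) - (m : ℤ) ^ 2 = ∑ a ∈ A, ∑ b ∈ A, c (a - b) := by
      have h2 : ∀ a b : ZMod n, c (a - b) = 3 * (I 0 (f a) * I 0 (f b) + I 1 (f a) * I 1 (f b) +
          I 2 (f a) * I 2 (f b)) - 1 := fun a b => by
        simp only [hc]; rw [map_sub]; exact W_sub _ _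
      simp only [h2, Finset.sum_sub_distrib, ← Finset.mul_sum, Finset.sum_add_distrib,
        ← Finset.sum_mul, Finset.sum_const, hm]
      simp only [← hx0, ← hx1, ← hx2, nsmul_eq_mul]
      ring
    rw [h1, ← Finset.sum_product', ← Finset.diag_union_offDiag,
      Finset.sum_union (Finset.disjoint_diag_offDiag _)]
    congr 1
    · rw [Finset.sum_congr rfl (g := fun _ => (2 : ℤ))]
      · rw [Finset.sum_const, Finset.diag_card, hm]; simp [mul_comm]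
      · rintro ⟨a, b⟩ hab
        rw [Finset.mem_diag] at hab
        simp only at hab ⊢
        rw [← hab.2, sub_self, c0]
    · rw [hD, Finset.sum_image inj]
  refine ⟨x0 - x1, x1 - x2, ∑ x ∈ U, I 0 (f x), Finset.sum_nonneg fun x _ => I_nonneg _, ?_, ?_⟩
  · rw [← cardU, Finset.card_eq_sum_ones, Nat.cast_sum]
    exact Finset.sum_le_sum fun x _ => by rw [Nat.cast_one]; exact I_le _
  · rw [← cardU]
    have h4 : 2 * ((x0 - x1) ^ 2 + (x0 - x1) * (x1 - x2) + (x1 - x2) ^ 2) =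
        3 * (x0 ^ 2 + x1 ^ 2 + x2 ^ 2) - (x0 + x1 + x2) ^ 2 := by ring
    rw [h4, hx, sq]
    linarith

lemma M_eq {n m : ℕ} (hm : 1 ≤ m) (h1 : m ^ 2 - m + 1 ≤ n) (h2 : n ≤ m ^ 2 + m) : M n = m := by
  unfold M
  obtain ⟨k, rfl⟩ : ∃ k, m = k + 1 := ⟨m - 1, by omega⟩
  have e : (k + 1) ^ 2 - (k + 1) = k * k + k := by
    rw [Nat.sub_eq_iff_eq_add (by nlinarith)]; ring
  rw [e] at h1
  have h3 : 2 * k + 1 ≤ Nat.sqrt (4 * n - 3) := by
    rw [Nat.le_sqrt]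
    have : 4 * (k * k + k + 1) ≤ 4 * n := by omega
    have e2 : (2 * k + 1) * (2 * k + 1) = 4 * (k * k + k + 1) - 3 := by
      rw [eq_comm, Nat.sub_eq_iff_eq_add (by omega)]; ring
    omega
  have h4 : Nat.sqrt (4 * n - 3) < 2 * k + 3 := by
    rw [Nat.sqrt_lt]
    have e3 : (2 * k + 3) * (2 * k + 3) = 4 * ((k + 1) ^ 2 + (k + 1)) + 1 := by ring
    omega
  omega

lemma sigma_lt {n m : ℕ} (hn : 3 ∣ n) (hn0 : 0 < n) (hm : 1 ≤ m) (h1 : m ^ 2 - m + 1 ≤ n)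
    (h2 : n ≤ m ^ 2 + m)
    (h : ∀ u v t : ℤ, 0 ≤ t → t ≤ (n : ℤ) - ((m : ℤ) ^ 2 - m + 1) →
      2 * (u ^ 2 + u * v + v ^ 2) ≠
        2 * ((m : ℤ) - 1) + ((n : ℤ) - ((m : ℤ) ^ 2 - m + 1)) - 3 * t) :
    sigma n < M n := by
  rw [M_eq hm h1 h2]
  have : NeZero n := ⟨hn0.ne'⟩
  have key : ∀ k ∈ {k | ∃ A : Finset (ZMod n), Sidon A ∧ A.card = k}, k ≤ m - 1 := by
    rintro k ⟨A, hA, hk⟩
    by_contra hc
    obtain ⟨B, hB, hB'⟩ := Finset.exists_subset_card_eq (show m ≤ A.card by omega)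
    obtain ⟨u, v, t, ht1, ht2, ht3⟩ := main hn hn0 B
      (fun a ha b hb c hc d hd => hA a (hB ha) b (hB hb) c (hB hc) d (hB hd)) hB'
    exact h u v t ht1 ht2 ht3
  have h3 : sigma n ≤ m - 1 := csSup_le ⟨0, ∅, fun a ha => absurd ha (Finset.notMem_empty a), rfl⟩ key
  omega

/-- norms are not 2 mod 4 -/
lemma norm_four (u v : ℤ) : (u ^ 2 + u * v + v ^ 2) % 4 ≠ 2 := by
  have h1 : (u ^ 2 + u * v + v ^ 2) % 4 =
      ((u % 4) * (u % 4) + (u % 4) * (v % 4) + (v % 4) * (v % 4)) % 4 := by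
    simp only [pow_two, Int.add_emod, Int.mul_emod, Int.emod_emod_of_dvd, dvd_refl]
  have h2 : u % 4 = 0 ∨ u % 4 = 1 ∨ u % 4 = 2 ∨ u % 4 = 3 := by omega
  have h3 : v % 4 = 0 ∨ v % 4 = 1 ∨ v % 4 = 2 ∨ v % 4 = 3 := by omega
  rcases h2 with h2 | h2 | h2 | h2 <;> rcases h3 with h3 | h3 | h3 | h3 <;>
    rw [h1, h2, h3] <;> norm_num

lemma norm_five (u v : ℤ) (h : (u ^ 2 + u * v + v ^ 2) % 5 = 0) : u % 5 = 0 ∧ v % 5 = 0 := by
  have h1 : (u ^ 2 + u * v + v ^ 2) % 5 =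
      ((u % 5) * (u % 5) + (u % 5) * (v % 5) + (v % 5) * (v % 5)) % 5 := by
    simp only [pow_two, Int.add_emod, Int.mul_emod, Int.emod_emod_of_dvd, dvd_refl]
  rw [h1] at h
  have h2 : u % 5 = 0 ∨ u % 5 = 1 ∨ u % 5 = 2 ∨ u % 5 = 3 ∨ u % 5 = 4 := by omega
  have h3 : v % 5 = 0 ∨ v % 5 = 1 ∨ v % 5 = 2 ∨ v % 5 = 3 ∨ v % 5 = 4 := by omega
  rcases h2 with h2 | h2 | h2 | h2 | h2 <;> rcases h3 with h3 | h3 | h3 | h3 | h3 <;>
    rw [h2, h3] at h <;> first | exact ⟨h2, h3⟩ | (norm_num at h)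

/-- norms are not 5 mod 25 -/
lemma norm_25 (u v : ℤ) : (u ^ 2 + u * v + v ^ 2) % 25 ≠ 5 := by
  intro h
  obtain ⟨h1, h2⟩ := norm_five u v (by omega)
  obtain ⟨a, rfl⟩ := Int.dvd_of_emod_eq_zero h1
  obtain ⟨b, rfl⟩ := Int.dvd_of_emod_eq_zero h2
  have e : (5 * a) ^ 2 + 5 * a * (5 * b) + (5 * b) ^ 2 = 25 * (a ^ 2 + a * b + b ^ 2) := by ring
  rw [e] at h
  omega

lemma case_two {m n : ℕ} (hm : 1 ≤ m) (hm3 : m % 3 ≠ 2) (hn : n = m ^ 2 - m + 3) (h3 : 3 ≤ m)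
    (h1 : ∀ u v : ℤ, u ^ 2 + u * v + v ^ 2 ≠ m) (h2 : ∀ u v : ℤ, u ^ 2 + u * v + v ^ 2 ≠ (m : ℤ) - 3) :
    sigma n < M n := by
  have hmm : m ≤ m ^ 2 := Nat.le_self_pow (by norm_num) m
  have hnz : (n : ℤ) = (m : ℤ) ^ 2 - m + 3 := by
    rw [hn, Nat.cast_add, Nat.cast_sub hmm]; push_cast; ring
  have hdiv : 3 ∣ n := by
    have h4 : (3 : ℤ) ∣ (n : ℤ) := by
      rw [hnz]
      obtain ⟨q, hq⟩ : ∃ q : ℤ, (m : ℤ) = 3 * q ∨ (m : ℤ) = 3 * q + 1 := ⟨(m : ℤ) / 3, by omega⟩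
      rcases hq with hq | hq
      · exact ⟨3 * q ^ 2 - q + 1, by rw [hq]; ring⟩
      · exact ⟨3 * q ^ 2 + q + 1, by rw [hq]; ring⟩
    exact_mod_cast h4
  refine sigma_lt hdiv (by omega) hm (by omega) (by omega) ?_
  intro u v t ht1 ht2 ht3
  rw [hnz] at ht2 ht3
  have ht4 : t ≤ 2 := by linarith
  obtain rfl | rfl | rfl : t = 0 ∨ t = 1 ∨ t = 2 := by omega
  · exact h1 u v (by linarith)
  · omega
  · exact h2 u v (by linarith)

theorem result :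
    -- the general obstruction
    (∀ n m : ℕ, 3 ∣ n → 0 < n → ∀ A : Finset (ZMod n), Sidon A → A.card = m →
      ∃ u v t : ℤ, 0 ≤ t ∧ t ≤ (n : ℤ) - ((m : ℤ) ^ 2 - m + 1) ∧
        2 * (u ^ 2 + u * v + v ^ 2) =
          2 * ((m : ℤ) - 1) + ((n : ℤ) - ((m : ℤ) ^ 2 - m + 1)) - 3 * t) ∧
    -- in terms of `σ` and `M`
    (∀ n m : ℕ, 3 ∣ n → 0 < n → 1 ≤ m → m ^ 2 - m + 1 ≤ n → n ≤ m ^ 2 + m →
      (∀ u v t : ℤ, 0 ≤ t → t ≤ (n : ℤ) - ((m : ℤ) ^ 2 - m + 1) →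
        2 * (u ^ 2 + u * v + v ^ 2) ≠
          2 * ((m : ℤ) - 1) + ((n : ℤ) - ((m : ℤ) ^ 2 - m + 1)) - 3 * t) →
      sigma n < M n) ∧
    -- the orders `m² - m + 3`
    (∀ m n : ℕ, 3 ≤ m → m % 3 ≠ 2 → n = m ^ 2 - m + 3 →
      (∀ u v : ℤ, u ^ 2 + u * v + v ^ 2 ≠ m) → (∀ u v : ℤ, u ^ 2 + u * v + v ^ 2 ≠ (m : ℤ) - 3) →
      sigma n < M n) ∧
    -- an explicit family of odd orders
    (∀ m n : ℕ, m % 300 = 58 → n = m ^ 2 - m + 3 → sigma n < M n) := by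
  refine ⟨fun n m hn hn0 A hA hm => main hn hn0 A hA hm,
    fun n m hn hn0 hm h1 h2 h => sigma_lt hn hn0 hm h1 h2 h,
    fun m n h3 hm3 hn h1 h2 => case_two (by omega) hm3 hn h3 h1 h2, ?_⟩
  intro m n hm hn
  refine case_two (by omega) (by omega) hn (by omega) (fun u v h => ?_) (fun u v h => ?_)
  · exact norm_four u v (by omega)
  · exact norm_25 u v (by omega)

end Pool.Agent.Results.MP_28ad2c_co.ThreeDividesOrder
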